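import Pool.Agent.MP_2117ab_co.Cover
import Pool.Agent.MP_2117ab_co.Local

/-!
For every `d ≥ 3` and every `g` there is a graph of girth greater than `g` with a decomposition
into `d` spanning trees which no placement realises, although every `g` vertices can be placed.
-/

set_option autoImplicit false

namespace Pool.Agent.Results.MP_2117ab_co.LargeGirth

open Pool.Agent.MP_2117ab_co.Grow

theorem result (d : ℕ) (hd : 3 ≤ d) (g : ℕ) :
    ∃ (V : Type) (_ : Fintype V) (G : SimpleGraph V) (T : Fin d → SimpleGraph V),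
      (∀ i, (T i).IsTree) ∧ (∀ i j, i ≠ j → Disjoint (T i) (T j)) ∧ G = ⨆ i, T i ∧
      (g : ℕ∞) < G.egirth ∧
      (∀ S : Finset V, S.card ≤ g → ∃ p : V → Fin d → ℝ, ∀ i : Fin d, ∀ u ∈ S, ∀ v ∈ S,
        G.Adj u v → ((T i).Adj u v ↔ ∀ j : Fin d, j ≠ i → |p u j - p v j| < |p u i - p v i|)) ∧
      ¬ ∃ p : V → Fin d → ℝ, ∀ i : Fin d, ∀ u v : V, G.Adj u v →
        ((T i).Adj u v ↔ ∀ j : Fin d, j ≠ i → |p u j - p v j| < |p u i - p v i|) := by
  have he : Function.Injective (Fin.castLE hd) := Fin.castLE_injective hd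
  obtain ⟨N, m, D, T, hT, htree, hhit⟩ := exists_trees g he
  refine ⟨Fin N ⊕ Fin m, inferInstance, ⨆ i, T i, T, htree, hT.disj, rfl, ?_, ?_, ?_⟩
  · refine lt_of_lt_of_le (b := ((g + 1 : ℕ) : ℕ∞)) (by exact_mod_cast Nat.lt_succ_self g) ?_
    rw [SimpleGraph.le_egirth]
    intro a w hw
    exact_mod_cast (hT.big a w hw).le
  · intro S hS
    choose f hf using fun i => exists_jump (hT.big.inside (hS.trans (Nat.le_succ g))) (T i)
    refine ⟨fun v i => f i v, fun i u hu v hv huv => ⟨fun h j hj => ?_, fun h => ?_⟩⟩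
    · have h1 : ¬ (T j).Adj u v := SimpleGraph.disjoint_left.mp (hT.disj i j hj.symm) u v h
      rw [(hf j u v ⟨huv, hu, hv⟩).2 h1, (hf i u v ⟨huv, hu, hv⟩).1 h]
      exact zero_lt_one
    · obtain ⟨k, hk⟩ := SimpleGraph.iSup_adj.mp huv
      by_contra hi
      have h1 := h k fun e => hi (e ▸ hk)
      rw [(hf k u v ⟨huv, hu, hv⟩).1 hk, (hf i u v ⟨huv, hu, hv⟩).2 hi] at h1
      exact absurd h1 (by norm_num)
  · rintro ⟨p, hp⟩
    obtain ⟨u, ⟨c, y, x, z⟩, ⟨hxy, hyz⟩, hy, hx, hz⟩ :=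
      hhit _ (tot_pat fun x j => p (.inl x) (Fin.castLE hd j))
    have key : ∀ i v, (T i).Adj u v → ∀ j, j ≠ i → |p u j - p v j| < |p u i - p v i| :=
      fun i v h => (hp i u v (le_iSup T i h)).mp h
    rw [le_pat] at hxy hyz
    have a1 := abs_lt.mp (key _ _ hy _ (he.ne (three_ne c).1))
    have a2 := abs_lt.mp (key _ _ hy _ (he.ne (three_ne c).2.1))
    have b1 := key _ _ hx _ (he.ne (three_ne c).1.symm)
    have b2 := key _ _ hz _ (he.ne (three_ne c).2.1.symm)
    have c1 := abs_le.mp (hxy (c + 1))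
    have c2 := abs_le.mp (hyz (c + 2))
    simp only at a1 a2 b1 b2 c1 c2
    rcases le_total 0 (p u (Fin.castLE hd c) - p (.inl y) (Fin.castLE hd c)) with h | h
    · rw [abs_of_nonneg h] at a1
      rcases lt_abs.mp ((le_abs_self _).trans_lt b1) with h1 | h1 <;> linarith [a1.1, a1.2, c1.1, c1.2]
    · rw [abs_of_nonpos h] at a2
      rcases lt_abs.mp ((neg_le_abs _).trans_lt b2) with h1 | h1 <;> linarith [a2.1, a2.2, c2.1, c2.2]

end Pool.Agent.Results.MP_2117ab_co.LargeGirth
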